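import Pool.Agent.Helper35_FKP.Skw
import Pool.Agent.Helper65_FKP.SYM

/-!
# FKP: CYC, the Schubert polynomials of the cycles modulo the symmetric polynomials
-/

set_option autoImplicit false

open Finset Equiv

noncomputable section

namespace Pool.Agent.FKP.H76

open Pool.Agent.FKP Pool.Agent.FKP.H35
open Pool.Agent.FKP.H65 (es es_hom es_emb es_zero es_insert)

variable {m : ℕ}

/-- the positions `hi a` -/
def Hs (m : ℕ) : Finset (Fin (m + 1)) := (univ : Finset (Fin m)).map ⟨hi, hi_inj⟩

theorem lo_notMem : (lo (0 : Fin 1) : Fin (m + 1)) ∉ Hs m := by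
  unfold Hs
  rw [mem_map]
  rintro ⟨a, -, h⟩
  exact lo_ne_hi (0 : Fin 1) a h.symm

theorem univ_eq : (univ : Finset (Fin (m + 1))) = insert (lo (0 : Fin 1)) (Hs m) := by
  symm
  rw [eq_univ_iff_forall]
  intro x
  rcases lo_or_hi (m := m) (s := 1) x with ⟨i, hi'⟩ | ⟨a, ha⟩
  · rw [Subsingleton.elim i 0] at hi'
    rw [hi']
    exact mem_insert_self _ _
  · rw [ha]
    refine mem_insert_of_mem ?_
    unfold Hs
    rw [mem_map]
    exact ⟨a, mem_univ _, rfl⟩

theorem ek_full (N k : ℕ) : ek N N k = es (univ : Finset (Fin N)) MvPolynomial.X k := by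
  unfold ek es
  congr 2
  rw [filter_true_of_mem]
  intro i _
  exact i.2

theorem ren_ek (k : ℕ) : MvPolynomial.rename (hi (m := m) (s := 1)) (ek m m k) =
    es (Hs m) MvPolynomial.X k := by
  rw [ek_full]
  have h1 := es_hom (MvPolynomial.rename (hi (m := m) (s := 1)) :
    MvPolynomial (Fin m) ℤ →ₐ[ℤ] MvPolynomial (Fin (m + 1)) ℤ).toRingHom univ MvPolynomial.X k
  have h2 : (MvPolynomial.rename (hi (m := m) (s := 1)) :
    MvPolynomial (Fin m) ℤ →ₐ[ℤ] MvPolynomial (Fin (m + 1)) ℤ).toRingHom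
      (es univ MvPolynomial.X k) = MvPolynomial.rename (hi (m := m) (s := 1))
      (es univ MvPolynomial.X k) := rfl
  rw [← h2, h1]
  unfold Hs
  rw [es_emb]
  congr 1
  funext i
  exact MvPolynomial.rename_X _ _

theorem rec_ek (k : ℕ) : ek (m + 1) (m + 1) (k + 1) =
    es (Hs m) MvPolynomial.X (k + 1) +
      MvPolynomial.X (lo (0 : Fin 1)) * es (Hs m) MvPolynomial.X k := by
  rw [ek_full, univ_eq, es_insert _ _ _ lo_notMem]

theorem ek_mem (N k : ℕ) (hk : 1 ≤ k) : ek N N k ∈ Isy N := Ideal.subset_span ⟨k, hk, rfl⟩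

/-- the elementary symmetric functions of the other variables -/
theorem es_mod (k : ℕ) : es (Hs m) MvPolynomial.X k -
    (-MvPolynomial.X (lo (0 : Fin 1))) ^ k ∈ Isy (m + 1) := by
  induction k with
  | zero =>
    rw [es_zero, pow_zero, sub_self]
    exact Ideal.zero_mem _
  | succ k ih =>
    have h1 : es (Hs m) MvPolynomial.X (k + 1) - (-MvPolynomial.X (lo (0 : Fin 1))) ^ (k + 1) =
        ek (m + 1) (m + 1) (k + 1) - MvPolynomial.X (lo (0 : Fin 1)) *
          (es (Hs m) MvPolynomial.X k - (-MvPolynomial.X (lo (0 : Fin 1))) ^ k) := by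
      rw [rec_ek]
      ring
    rw [h1]
    exact Ideal.sub_mem _ (ek_mem _ _ (by omega)) (Ideal.mul_mem_left _ _ ih)

theorem es_card : es (Hs m) MvPolynomial.X m =
    ∏ i ∈ Hs m, (MvPolynomial.X i : MvPolynomial (Fin (m + 1)) ℤ) := by
  have h1 : (Hs m).card = m := by
    unfold Hs
    rw [card_map, card_univ, Fintype.card_fin]
  unfold es
  have h2 : powersetCard m (Hs m) = {Hs m} := by
    have h3 := powersetCard_self (Hs m)
    rw [h1] at h3
    exact h3
  rw [h2, sum_singleton]

theorem prod_neg_Hs : ∏ i ∈ Hs m, (-(MvPolynomial.X i : MvPolynomial (Fin (m + 1)) ℤ)) =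
    (-1) ^ m * es (Hs m) MvPolynomial.X m := by
  have h1 : (Hs m).card = m := by
    unfold Hs
    rw [card_map, card_univ, Fintype.card_fin]
  rw [es_card]
  have h2 : ∀ i ∈ Hs m, (-(MvPolynomial.X i : MvPolynomial (Fin (m + 1)) ℤ)) =
      (-1) * MvPolynomial.X i := fun i _ => by ring
  rw [prod_congr rfl h2, prod_mul_distrib, prod_const, h1]

theorem pow_mod : MvPolynomial.X (lo (0 : Fin 1)) ^ m -
    ∏ i ∈ Hs m, (-(MvPolynomial.X i : MvPolynomial (Fin (m + 1)) ℤ)) ∈ Isy (m + 1) := by
  rw [prod_neg_Hs]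
  have h1 : MvPolynomial.X (lo (0 : Fin 1)) ^ m - (-1) ^ m * es (Hs m) MvPolynomial.X m =
      (-(-1 : MvPolynomial (Fin (m + 1)) ℤ) ^ m) * (es (Hs m) MvPolynomial.X m -
        (-MvPolynomial.X (lo (0 : Fin 1))) ^ m) := by
    have h2 : (-1 : MvPolynomial (Fin (m + 1)) ℤ) ^ m * (-1) ^ m = 1 := by
      rw [← mul_pow]
      simp
    have h3 : (-(MvPolynomial.X (lo (0 : Fin 1)) : MvPolynomial (Fin (m + 1)) ℤ)) ^ m =
        (-1) ^ m * MvPolynomial.X (lo (0 : Fin 1)) ^ m := by
      rw [← mul_pow]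
      congr 1
      ring
    rw [h3]
    linear_combination (-(MvPolynomial.X (lo (0 : Fin 1)) : MvPolynomial (Fin (m + 1)) ℤ) ^ m) * h2
  rw [h1]
  exact Ideal.mul_mem_left _ _ (es_mod m)

theorem topm_one : topm (m + 1) 1 = MvPolynomial.X (lo (0 : Fin 1)) ^ m := by
  unfold topm
  have h1 : univ.filter (fun j : Fin (m + 1) => j.val < 1) = {(lo (0 : Fin 1))} := by
    ext x
    rw [mem_filter, mem_singleton]
    constructor
    · rintro ⟨-, h⟩
      ext
      simp only [lo]
      have : x.val = 0 := by omega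
      rw [this]
      rfl
    · intro h
      rw [h]
      exact ⟨mem_univ _, by simp [lo]⟩
  rw [h1, prod_singleton]
  congr 1

/-- an element of `Isy m` in the last variables, times the monomial -/
theorem mul_ren (top : TopStmt) {f : MvPolynomial (Fin m) ℤ} (hf : f ∈ Isy m) :
    MvPolynomial.X (lo (0 : Fin 1)) ^ m * MvPolynomial.rename (hi (m := m) (s := 1)) f ∈
      Isy (m + 1) := by
  have htop := top (m + 1) 1 (lo (0 : Fin 1)) (by simp [lo])
  rw [topm_one] at htop
  unfold Isy at hf
  induction hf using Submodule.span_induction with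
  | mem z hz =>
    obtain ⟨k, hk, rfl⟩ := hz
    obtain ⟨k, rfl⟩ := Nat.exists_eq_add_of_le' hk
    rw [ren_ek]
    have h1 : (MvPolynomial.X (lo (0 : Fin 1)) : MvPolynomial (Fin (m + 1)) ℤ) ^ m *
        es (Hs m) MvPolynomial.X (k + 1) =
        MvPolynomial.X (lo (0 : Fin 1)) ^ m * ek (m + 1) (m + 1) (k + 1) -
        (es (Hs m) MvPolynomial.X k) *
          (MvPolynomial.X (lo (0 : Fin 1)) ^ m * MvPolynomial.X (lo (0 : Fin 1))) := by
      rw [rec_ek]
      ring
    rw [h1]
    exact Ideal.sub_mem _ (Ideal.mul_mem_left _ _ (ek_mem _ _ (by omega)))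
      (Ideal.mul_mem_left _ _ htop)
  | zero =>
    rw [map_zero, mul_zero]
    exact Ideal.zero_mem _
  | add a b _ _ ha hb =>
    rw [map_add, mul_add]
    exact Ideal.add_mem _ ha hb
  | smul a b _ hb =>
    rw [smul_eq_mul, map_mul]
    have h1 : (MvPolynomial.X (lo (0 : Fin 1)) : MvPolynomial (Fin (m + 1)) ℤ) ^ m *
        (MvPolynomial.rename (hi (m := m) (s := 1)) a *
          MvPolynomial.rename (hi (m := m) (s := 1)) b) =
        MvPolynomial.rename (hi (m := m) (s := 1)) a * (MvPolynomial.X (lo (0 : Fin 1)) ^ m *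
          MvPolynomial.rename (hi (m := m) (s := 1)) b) := by ring
    rw [h1]
    exact Ideal.mul_mem_left _ _ hb

/-- the permutation with the largest value first and the others in increasing order -/
theorem eq_skew (w : Perm (Fin (m + 1))) (h0 : (w (lo (0 : Fin 1)) : ℕ) = m)
    (h1 : ∀ a b : Fin (m + 1), a < b → a ≠ lo (0 : Fin 1) → b ≠ lo (0 : Fin 1) → w a < w b) :
    w = skew (1 : Perm (Fin 1)) (1 : Perm (Fin m)) := by
  have hlt : ∀ a b : Fin m, a < b → (hi a : Fin (m + 1)) < hi b := by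
    intro a b hab
    have h2 : a.val < b.val := hab
    rw [Fin.lt_def]
    simp only [hi, Fin.val_addNat]
    omega
  have hs0 : (skew (1 : Perm (Fin 1)) (1 : Perm (Fin m)) (lo (0 : Fin 1)) : ℕ) = m := by
    rw [skew_lo]
    simp
  have hs1 : ∀ a : Fin m, skew (1 : Perm (Fin 1)) (1 : Perm (Fin m)) (hi a) =
      Fin.castAdd 1 a := by
    intro a
    rw [skew_hi]
    rfl
  have e0 : w (lo (0 : Fin 1)) = skew (1 : Perm (Fin 1)) (1 : Perm (Fin m)) (lo (0 : Fin 1)) := by
    ext
    rw [h0, hs0]
  have hf : StrictMono (fun a : Fin m => w (hi a)) := by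
    intro a b hab
    exact h1 _ _ (hlt a b hab) (lo_ne_hi _ _).symm (lo_ne_hi _ _).symm
  have hg : StrictMono (fun a : Fin m => skew (1 : Perm (Fin 1)) (1 : Perm (Fin m)) (hi a)) := by
    intro a b hab
    show skew (1 : Perm (Fin 1)) (1 : Perm (Fin m)) (hi a) <
      skew (1 : Perm (Fin 1)) (1 : Perm (Fin m)) (hi b)
    rw [hs1, hs1]
    exact hab
  have hr : ∀ v : Perm (Fin (m + 1)), (v (lo (0 : Fin 1)) =
      skew (1 : Perm (Fin 1)) (1 : Perm (Fin m)) (lo (0 : Fin 1))) →
      Set.range (fun a : Fin m => v (hi a)) =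
        {x | x ≠ skew (1 : Perm (Fin 1)) (1 : Perm (Fin m)) (lo (0 : Fin 1))} := by
    intro v hv
    ext x
    constructor
    · rintro ⟨a, rfl⟩ hx
      have h2 : v (hi a) = v (lo (0 : Fin 1)) := by
        rw [hv]
        exact hx
      exact lo_ne_hi _ _ (v.injective h2).symm
    · intro hx
      rcases lo_or_hi (m := m) (s := 1) (v.symm x) with ⟨i, hi'⟩ | ⟨a, ha⟩
      · exfalso
        apply hx
        rw [Subsingleton.elim i 0] at hi'
        rw [← hv, ← hi', Equiv.apply_symm_apply]
      · exact ⟨a, by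
          show v (hi a) = x
          rw [← ha, Equiv.apply_symm_apply]⟩
  have key := (StrictMono.range_inj hf hg).1 ((hr w e0).trans (hr _ rfl).symm)
  ext x
  rcases lo_or_hi (m := m) (s := 1) x with ⟨i, hi'⟩ | ⟨a, ha⟩
  · rw [Subsingleton.elim i 0] at hi'
    rw [hi', e0]
  · rw [ha]
    exact congrArg Fin.val (congrFun key a)

theorem filter_lo : univ.filter (fun l : Fin (m + 1) => (lo (0 : Fin 1) : Fin (m + 1)) < l) =
    Hs m := by
  ext x
  rw [mem_filter]
  constructor
  · rintro ⟨-, h⟩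
    have h2 : x ∈ insert (lo (0 : Fin 1)) (Hs m) := by
      rw [← univ_eq]
      exact mem_univ _
    rcases mem_insert.1 h2 with h3 | h3
    · rw [h3] at h
      exact absurd h (lt_irrefl _)
    · exact h3
  · intro h
    refine ⟨mem_univ _, ?_⟩
    unfold Hs at h
    rw [mem_map] at h
    obtain ⟨a, -, rfl⟩ := h
    rw [Fin.lt_def]
    simp [lo, hi]

theorem cyc_succ (top : TopStmt) (ddi : DdiStmt)
    (ih : ∀ S : Perm (Fin m) → MvPolynomial (Fin m) ℤ, IsSch m S → S 1 - 1 ∈ Isy m)
    (S : Perm (Fin (m + 1)) → MvPolynomial (Fin (m + 1)) ℤ) (hS : IsSch (m + 1) S) :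
    ∀ (k : ℕ) (j : Fin (m + 1)), j.val = k → ∀ w : Perm (Fin (m + 1)), (w j : ℕ) = m →
    (∀ a b : Fin (m + 1), a < b → a ≠ j → b ≠ j → w a < w b) →
    S w - ∏ l ∈ univ.filter (fun l : Fin (m + 1) => j < l), (- MvPolynomial.X l) ∈
      Isy (m + 1) := by
  intro k
  induction k with
  | zero =>
    intro j hj w hw hinc
    have hj0 : j = lo (0 : Fin 1) := by
      ext
      rw [hj]
      rfl
    rw [hj0] at hw hinc ⊢
    rw [filter_lo, eq_skew w hw hinc]
    obtain ⟨S1, S2, hS1, hS2, hsk⟩ := skw m 1 S hS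
    rw [hsk]
    have e1 : S1 1 = 1 := by
      have h1 := hS1.1
      have h2 : (Fin.revPerm : Perm (Fin 1)) = 1 := Subsingleton.elim _ _
      rw [h2] at h1
      rw [h1]
      simp
    have e2 : (∏ i : Fin 1, (MvPolynomial.X (lo i) : MvPolynomial (Fin (m + 1)) ℤ)) =
        MvPolynomial.X (lo (0 : Fin 1)) := by
      simp
    rw [e1, e2, map_one, mul_one]
    have h3 := mul_ren top (ih S2 hS2)
    rw [map_sub, map_one, mul_sub, mul_one] at h3
    have h4 := Ideal.add_mem _ h3 (pow_mod (m := m))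
    have h5 : (MvPolynomial.X (lo (0 : Fin 1)) : MvPolynomial (Fin (m + 1)) ℤ) ^ m *
        MvPolynomial.rename hi (S2 1) - ∏ i ∈ Hs m, (-MvPolynomial.X i) =
        MvPolynomial.X (lo (0 : Fin 1)) ^ m * MvPolynomial.rename hi (S2 1) -
        MvPolynomial.X (lo (0 : Fin 1)) ^ m + (MvPolynomial.X (lo (0 : Fin 1)) ^ m -
          ∏ i ∈ Hs m, (-MvPolynomial.X i)) := by ring
    rw [h5]
    exact h4
  | succ k ihk =>
    intro j hj w hw hinc
    have hk : k < m + 1 := by
      have := j.2
      omega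
    obtain ⟨i, hi⟩ : ∃ i : Fin (m + 1), i.val = k := ⟨⟨k, hk⟩, rfl⟩
    have hij : (i : ℕ) + 1 = j := by omega
    have hne : i ≠ j := adj_ne hij
    have hlt : i < j := by
      rw [Fin.lt_def]
      omega
    have hwi : w i < w j := by
      rw [Fin.lt_def, hw]
      have h1 : w i ≠ w j := fun h => hne (w.injective h)
      have h2 : (w i : ℕ) ≠ m := fun h => h1 (Fin.ext (by rw [h, hw]))
      have := (w i).2
      omega
    have h1 := ihk i hi (w * swap i j) (by rw [Perm.mul_apply, swap_apply_left, hw]) (by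
      intro a b hab ha hb
      rw [Perm.mul_apply, Perm.mul_apply]
      by_cases haj : a = j
      · have hbj : b ≠ j := fun h => by
          rw [haj, h] at hab
          exact lt_irrefl _ hab
        rw [haj, swap_apply_right, swap_apply_of_ne_of_ne hb hbj]
        rw [haj] at hab
        exact hinc i b (hlt.trans hab) hne hbj
      · by_cases hbj : b = j
        · rw [hbj, swap_apply_right, swap_apply_of_ne_of_ne ha haj]
          rw [hbj] at hab
          have h2 : a.val < j.val := hab
          have h3 : a.val ≠ i.val := fun h => ha (Fin.ext h)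
          refine hinc a i ?_ haj hne
          rw [Fin.lt_def]
          omega
        · rw [swap_apply_of_ne_of_ne ha haj, swap_apply_of_ne_of_ne hb hbj]
          exact hinc a b hab haj hbj)
    have h2 := hS.2 (w * swap i j) i j hij (by
      rw [Perm.mul_apply, Perm.mul_apply, swap_apply_left, swap_apply_right]
      exact hwi)
    rw [mul_assoc, swap_mul_self, mul_one] at h2
    refine ddi (m + 1) i j _ _ hne ?_ h1
    -- the product
    have h3 : univ.filter (fun l : Fin (m + 1) => i < l) =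
        insert j (univ.filter (fun l : Fin (m + 1) => j < l)) := by
      ext x
      rw [mem_insert, mem_filter, mem_filter, Fin.lt_def, Fin.lt_def, Fin.ext_iff]
      constructor
      · rintro ⟨-, h⟩
        by_cases hx : x.val = j.val
        · exact Or.inl hx
        · exact Or.inr ⟨mem_univ _, by omega⟩
      · rintro (h | ⟨-, h⟩)
        · exact ⟨mem_univ _, by omega⟩
        · exact ⟨mem_univ _, by omega⟩
    have h4 : j ∉ univ.filter (fun l : Fin (m + 1) => j < l) := by
      rw [mem_filter]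
      rintro ⟨-, h⟩
      exact lt_irrefl _ h
    obtain ⟨Q, hQ⟩ : ∃ Q : MvPolynomial (Fin (m + 1)) ℤ,
        Q = ∏ l ∈ univ.filter (fun l : Fin (m + 1) => j < l), (- MvPolynomial.X l) := ⟨_, rfl⟩
    have h5 : MvPolynomial.rename (swap i j) Q = Q := by
      rw [hQ, map_prod]
      refine prod_congr rfl fun l hl => ?_
      rw [mem_filter] at hl
      rw [map_neg, MvPolynomial.rename_X, swap_apply_of_ne_of_ne]
      · intro h
        rw [h] at hl
        exact absurd (hl.2.trans hlt) (lt_irrefl _)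
      · intro h
        rw [h] at hl
        exact lt_irrefl _ hl.2
    rw [h3, prod_insert h4, ← hQ, map_sub, map_mul, map_neg, MvPolynomial.rename_X,
      swap_apply_right, h5, mul_sub, h2]
    ring

theorem cyc (top : TopStmt) (ddi : DdiStmt) : CycStmt := by
  intro N
  induction N with
  | zero =>
    intro S hS
    constructor
    · have h1 : (Fin.revPerm : Perm (Fin 0)) = 1 := Subsingleton.elim _ _
      have h2 := hS.1
      rw [h1] at h2
      rw [h2]
      simp
    · intro j
      exact j.elim0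
  | succ m ih =>
    intro S hS
    have key := cyc_succ top ddi (fun S' hS' => (ih S' hS').1) S hS
    constructor
    · have h1 := key m (Fin.last m) rfl 1 rfl (fun a b hab _ _ => hab)
      have h2 : univ.filter (fun l : Fin (m + 1) => Fin.last m < l) = ∅ := by
        ext x
        rw [mem_filter]
        constructor
        · rintro ⟨-, h⟩
          exact absurd (lt_of_lt_of_le h (Fin.le_last x)) (lt_irrefl _)
        · intro h
          exact absurd h (notMem_empty _)
      rw [h2, prod_empty] at h1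
      exact h1
    · intro j w hw hinc
      exact key j.val j rfl w (by rw [hw]; rfl) hinc

end Pool.Agent.FKP.H76
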