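import Pool.Agent.FKP.Fin1

/-!
# QIF: the question of the problem for one permutation is equivalent to `good`
-/

set_option autoImplicit false

open Finset Equiv

noncomputable section

namespace Pool.Agent.FKP.H76

open Pool.Agent.FKP

/-- The question Q1 for the permutation `w`: the frozen statement with `w` fixed. -/
def Q1 (n : ℕ) (w : Equiv.Perm (Fin (n + 1))) : Prop :=
  ∀ P : Equiv.Perm (Fin (n + 1)) → MvPolynomial (Fin (n + 1)) ℤ,
    P Fin.revPerm = ∏ j : Fin (n + 1), MvPolynomial.X j ^ (n - j.val) →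
    (∀ (w : Equiv.Perm (Fin (n + 1))) (i : Fin n), w i.succ < w i.castSucc →
      (MvPolynomial.X i.castSucc - MvPolynomial.X i.succ) * P (w * Equiv.swap i.castSucc i.succ)
        = P w - MvPolynomial.rename (⇑(Equiv.swap i.castSucc i.succ)) (P w)) →
      ∃ L : List (List {p : Fin (n + 1) × Fin (n + 1) // p.1 < p.2}),
        RingQuot.mkRingHom
          (fun u v : FreeAlgebra ℤ {p : Fin (n + 1) × Fin (n + 1) // p.1 < p.2} =>
            (∃ p : {p : Fin (n + 1) × Fin (n + 1) // p.1 < p.2},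
              u = FreeAlgebra.ι ℤ p * FreeAlgebra.ι ℤ p ∧ v = 0) ∨
            (∃ p q s : {p : Fin (n + 1) × Fin (n + 1) // p.1 < p.2},
              p.1.2 = q.1.1 ∧ s.1.1 = p.1.1 ∧ s.1.2 = q.1.2 ∧
              u = FreeAlgebra.ι ℤ p * FreeAlgebra.ι ℤ q ∧
              v = FreeAlgebra.ι ℤ s * FreeAlgebra.ι ℤ p + FreeAlgebra.ι ℤ q * FreeAlgebra.ι ℤ s) ∨
            (∃ p q s : {p : Fin (n + 1) × Fin (n + 1) // p.1 < p.2},
              p.1.2 = q.1.1 ∧ s.1.1 = p.1.1 ∧ s.1.2 = q.1.2 ∧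
              u = FreeAlgebra.ι ℤ q * FreeAlgebra.ι ℤ p ∧
              v = FreeAlgebra.ι ℤ p * FreeAlgebra.ι ℤ s + FreeAlgebra.ι ℤ s * FreeAlgebra.ι ℤ q) ∨
            (∃ p q : {p : Fin (n + 1) × Fin (n + 1) // p.1 < p.2},
              p.1.1 ≠ q.1.1 ∧ p.1.1 ≠ q.1.2 ∧ p.1.2 ≠ q.1.1 ∧ p.1.2 ≠ q.1.2 ∧
              u = FreeAlgebra.ι ℤ p * FreeAlgebra.ι ℤ q ∧
              v = FreeAlgebra.ι ℤ q * FreeAlgebra.ι ℤ p))
          (∑ m ∈ (P w).support, (P w).coeff m •
            (List.ofFn (fun j : Fin (n + 1) =>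
              (∑ p : {p : Fin (n + 1) × Fin (n + 1) // p.1 < p.2},
                (if p.1.2 = j then -FreeAlgebra.ι ℤ p
                 else if p.1.1 = j then FreeAlgebra.ι ℤ p else 0)) ^ m j)).prod)
        =
        RingQuot.mkRingHom
          (fun u v : FreeAlgebra ℤ {p : Fin (n + 1) × Fin (n + 1) // p.1 < p.2} =>
            (∃ p : {p : Fin (n + 1) × Fin (n + 1) // p.1 < p.2},
              u = FreeAlgebra.ι ℤ p * FreeAlgebra.ι ℤ p ∧ v = 0) ∨
            (∃ p q s : {p : Fin (n + 1) × Fin (n + 1) // p.1 < p.2},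
              p.1.2 = q.1.1 ∧ s.1.1 = p.1.1 ∧ s.1.2 = q.1.2 ∧
              u = FreeAlgebra.ι ℤ p * FreeAlgebra.ι ℤ q ∧
              v = FreeAlgebra.ι ℤ s * FreeAlgebra.ι ℤ p + FreeAlgebra.ι ℤ q * FreeAlgebra.ι ℤ s) ∨
            (∃ p q s : {p : Fin (n + 1) × Fin (n + 1) // p.1 < p.2},
              p.1.2 = q.1.1 ∧ s.1.1 = p.1.1 ∧ s.1.2 = q.1.2 ∧
              u = FreeAlgebra.ι ℤ q * FreeAlgebra.ι ℤ p ∧
              v = FreeAlgebra.ι ℤ p * FreeAlgebra.ι ℤ s + FreeAlgebra.ι ℤ s * FreeAlgebra.ι ℤ q) ∨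
            (∃ p q : {p : Fin (n + 1) × Fin (n + 1) // p.1 < p.2},
              p.1.1 ≠ q.1.1 ∧ p.1.1 ≠ q.1.2 ∧ p.1.2 ≠ q.1.1 ∧ p.1.2 ≠ q.1.2 ∧
              u = FreeAlgebra.ι ℤ p * FreeAlgebra.ι ℤ q ∧
              v = FreeAlgebra.ι ℤ q * FreeAlgebra.ι ℤ p))
          ((L.map (fun u => (u.map (fun p => FreeAlgebra.ι ℤ p)).prod)).sum)

/-- the polynomial in the Dunkl elements, mapped to `A` -/
theorem toA_dunkl {n : ℕ} (p : MvPolynomial (Fin (n + 1)) ℤ) :
    toA (n + 1) (RingQuot.mkRingHom (Rel (n + 1))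
        (∑ m ∈ p.support, p.coeff m •
          (List.ofFn (fun j : Fin (n + 1) =>
            (∑ p : {p : Fin (n + 1) × Fin (n + 1) // p.1 < p.2},
              (if p.1.2 = j then -FreeAlgebra.ι ℤ p
               else if p.1.1 = j then FreeAlgebra.ι ℤ p else 0)) ^ m j)).prod)) =
      ev (n + 1) p := by
  have hθ : ∀ j : Fin (n + 1), toA (n + 1) (RingQuot.mkRingHom (Rel (n + 1))
      (∑ p : {p : Fin (n + 1) × Fin (n + 1) // p.1 < p.2},
        (if p.1.2 = j then -FreeAlgebra.ι ℤ p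
         else if p.1.1 = j then FreeAlgebra.ι ℤ p else 0))) = θ j := by
    intro j
    rw [map_sum, map_sum, ← theta_eq j]
    refine Finset.sum_congr rfl fun q _ => ?_
    split_ifs
    · rw [map_neg, map_neg]; rfl
    · rfl
    · rw [map_zero, map_zero]
  conv_rhs => rw [p.as_sum, map_sum]
  rw [map_sum, map_sum]
  refine Finset.sum_congr rfl fun m _ => ?_
  rw [map_zsmul, map_zsmul, map_list_prod, map_list_prod, List.map_ofFn, List.map_ofFn]
  have h1 : (MvPolynomial.monomial m (p.coeff m) : MvPolynomial (Fin (n + 1)) ℤ) =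
      p.coeff m • (List.ofFn fun j : Fin (n + 1) => MvPolynomial.X j ^ m j).prod := by
    rw [List.prod_ofFn, MvPolynomial.monomial_eq, Finsupp.prod_fintype _ _ (by simp),
      zsmul_eq_mul]
    congr 1
  rw [h1, map_zsmul, map_list_prod, List.map_ofFn]
  congr 2
  congr 1
  funext j
  simp only [Function.comp_apply, map_pow, hθ, ev_X]

/-- a list of words is a sum of words -/
theorem list_mem {N : ℕ} (L : List (List (Lt N))) : RingQuot.mkRingHom (Rel N)
    ((L.map (fun u => (u.map (fun p => FreeAlgebra.ι ℤ p)).prod)).sum) ∈ posE N := by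
  rw [map_list_sum]
  refine list_sum_mem fun z hz => ?_
  rw [List.map_map, List.mem_map] at hz
  obtain ⟨u, -, rfl⟩ := hz
  show RingQuot.mkRingHom (Rel N) (u.map (fun p => FreeAlgebra.ι ℤ p)).prod ∈ posE N
  rw [map_list_prod]
  refine list_prod_mem fun z hz => ?_
  rw [List.map_map, List.mem_map] at hz
  obtain ⟨p, -, rfl⟩ := hz
  exact lt_mem p

theorem q1_iff (n : ℕ) (w : Perm (Fin (n + 1))) : Q1 n w ↔ good (n + 1) w := by
  constructor
  · intro h S hS
    obtain ⟨L, hL⟩ := h S hS.1 (fun w i hi => hS.2 w i.castSucc i.succ rfl hi)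
    have h1 := toA_dunkl (S w)
    have h2 : RingQuot.mkRingHom (Rel (n + 1))
        (∑ m ∈ (S w).support, (S w).coeff m •
          (List.ofFn (fun j : Fin (n + 1) =>
            (∑ p : {p : Fin (n + 1) × Fin (n + 1) // p.1 < p.2},
              (if p.1.2 = j then -FreeAlgebra.ι ℤ p
               else if p.1.1 = j then FreeAlgebra.ι ℤ p else 0)) ^ m j)).prod) =
        RingQuot.mkRingHom (Rel (n + 1))
          ((L.map (fun u => (u.map (fun p => FreeAlgebra.ι ℤ p)).prod)).sum) := hL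
    rw [h2] at h1
    rw [← h1]
    exact toA_mem (list_mem L)
  · intro h S h1 h2
    exact frz (h S (H86.brg n S h1 h2))

end Pool.Agent.FKP.H76
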